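import Mathlib
import Pool.Graph.R_seed8.W684.FM.Ambient
import Pool.Graph.R_pool_sql_team_seeded_3997aac3.Q213.CpSepG

/-!
# MP_5cc1ac_gt: closed subspaces of `C_pC_pC_p(X)` are consistently separable

First part: some notion of forcing preserves all cardinals and forces Martin's axiom for `ℵ₁` dense
sets (the forcing language is the one of `Pool.Agent.Helper669.Forcing`; `MartinHolds P Om1` is the
set of the conditions which force the sentence `MartinFor Om1`, `Om1` the ordinal `ω₁`).
Second part: this sentence is equivalent to the usual form of Martin's axiom for `ℵ₁` dense sets.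
Third part: under this axiom, if `X` is Tychonoff and `C_pC_p(X)` is perfectly normal then every subspace
(closed or not) of `C_pC_pC_p(X)` is separable. So the positive answer to Q1 is consistent with ZFC.
-/

set_option autoImplicit false

namespace Pool.Agent.Results.MP_5cc1ac_gt.ConsistentlyYes

open TopologicalSpace Cardinal Pool.Agent.W684 Pool.Agent.W684.FM Pool.Agent.Helper669.Forcing

/-- Martin's axiom for `ℵ₁` dense sets: a nonempty preordered set with no uncountable antichain has,
for any family of at most `ℵ₁` dense subsets, a filter meeting all of them. -/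
def MartinAlephOne : Prop :=
  ∀ (P : Type) (_ : Preorder P), Nonempty P →
    (∀ A : Set P, (∀ p ∈ A, ∀ q ∈ A, p ≠ q → ¬ ∃ r, r ≤ p ∧ r ≤ q) → A.Countable) →
    ∀ 𝒟 : Set (Set P), Cardinal.mk 𝒟 ≤ Cardinal.aleph 1 →
      (∀ D ∈ 𝒟, ∀ p, ∃ q ∈ D, q ≤ p) →
      ∃ G : Set P, G.Nonempty ∧ (∀ p ∈ G, ∀ q, p ≤ q → q ∈ G) ∧
        (∀ p ∈ G, ∀ q ∈ G, ∃ r ∈ G, r ≤ p ∧ r ≤ q) ∧ ∀ D ∈ 𝒟, (D ∩ G).Nonempty

/-- The space `C_p(Z)`: the continuous real functions on `Z` with the topology of pointwise
convergence (the subspace topology of the product `ℝ^Z`). -/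
abbrev Cp (Z : Type) [TopologicalSpace Z] : Type := {f : Z → ℝ // Continuous f}

theorem martin_iff : MartinFor Om1 ↔ MartinAlephOne := by
  have h0 : #Om1 = ℵ₁ := mk_ord_toType _
  rw [martinFor_iff, h0]
  constructor
  · intro h P _ hn hc 𝒟 hD hd
    obtain ⟨G, h1, h2, h3, h4⟩ := h P (fun A hA => hc A hA) 𝒟 hD hd
    exact ⟨G, h1, h2, h3, fun D hD => by rw [Set.inter_comm]; exact h4 D hD⟩
  · intro h P _ _ hc 𝒟 hD hd
    obtain ⟨G, h1, h2, h3, h4⟩ := h P inferInstance inferInstance (fun A hA => hc A hA) 𝒟 hD hd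
    exact ⟨G, h1, h2, h3, fun D hD => by rw [Set.inter_comm]; exact h4 D hD⟩

/-- **It is consistent that every subspace of `C_pC_pC_p(X)` is separable whenever `C_pC_p(X)` is
perfectly normal.** -/
theorem result :
    (∃ (P : Type) (_ : Preorder P), Nonempty P ∧ ∀ p : P,
      p ∈ CardinalsPreserved.{0, 0} P ∧ p ∈ OmegaOnePreserved P ∧ p ∈ MartinHolds P Om1) ∧
    (MartinFor Om1 ↔ MartinAlephOne) ∧
    (MartinAlephOne → ∀ (X : Type) [TopologicalSpace X] [T35Space X],
      PerfectlyNormalSpace (Cp (Cp X)) → ∀ S : Set (Cp (Cp (Cp X))), SeparableSpace S) := by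
  haveI : Infinite Om1 := by
    rw [Cardinal.infinite_iff, Cardinal.mk_ord_toType]
    exact Cardinal.aleph0_le_aleph _
  exact ⟨exists_forcing Om1, martin_iff, fun h X _ _ hX => Pool.Agent.Q213.CpSep.hs_c3 X h hX⟩

end Pool.Agent.Results.MP_5cc1ac_gt.ConsistentlyYes
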